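import Pool.Agent.Q10.Fpp.Chains
import Pool.Agent.Q10.Fpp.Stages

/-!
# The largest number of times the fixed point property is gained along a maximal chain of orders
-/

set_option autoImplicit false

namespace Pool.Agent.Results.MP_eb30e1_co.MaxGains

/-- `r` is an order relation: reflexive, antisymmetric and transitive. -/
def IsOrder {n : ℕ} (r : Fin n → Fin n → Prop) : Prop :=
  (∀ x, r x x) ∧ (∀ x y, r x y → r y x → x = y) ∧ (∀ x y z, r x y → r y z → r x z)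

/-- The order relations on `Fin n`. As a subtype of the relations `Fin n → Fin n → Prop` they are
ordered by inclusion: `r ≤ s` means that `r x y` implies `s x y` for all `x`, `y`. -/
abbrev OrderRel (n : ℕ) : Type := {r : Fin n → Fin n → Prop // IsOrder r}

/-- The fixed point property: every order preserving self-map has a fixed point. -/
def FPP {n : ℕ} (r : Fin n → Fin n → Prop) : Prop :=
  ∀ f : Fin n → Fin n, (∀ x y, r x y → r (f x) (f y)) → ∃ x, f x = x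

/-- `p.1` and `p.2` are consecutive members of the chain `𝒞`. -/
def Adjacent {n : ℕ} (𝒞 : Set (OrderRel n)) (p : OrderRel n × OrderRel n) : Prop :=
  p.1 ∈ 𝒞 ∧ p.2 ∈ 𝒞 ∧ p.1 < p.2 ∧ ∀ q ∈ 𝒞, ¬ (p.1 < q ∧ q < p.2)

/-- For `n ≥ 2` the largest number of adjacencies `p.1 ≺ p.2` of a maximal chain of order relations
on `n` points such that `p.1` lacks the fixed point property and `p.2` has it is
`1 + ⌊(n - 2)² / 4⌋` (it is `0` for `n ≤ 1`). -/
theorem result (n : ℕ) :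
    IsGreatest {k : ℕ | ∃ 𝒞 : Set (OrderRel n), IsMaxChain (· ≤ ·) 𝒞 ∧
      {p : OrderRel n × OrderRel n | Adjacent 𝒞 p ∧ ¬ FPP p.1.1 ∧ FPP p.2.1}.ncard = k}
      (if n ≤ 1 then 0 else 1 + (n - 2) ^ 2 / 4) := by
  have key : ∀ P : (Fin n → Fin n → Prop) → Prop, P = Q10.Fpp.PO →
      IsGreatest {k : ℕ | ∃ 𝒞 : Set {r : Fin n → Fin n → Prop // P r}, IsMaxChain (· ≤ ·) 𝒞 ∧
        {p : {r : Fin n → Fin n → Prop // P r} × {r : Fin n → Fin n → Prop // P r} |
          (p.1 ∈ 𝒞 ∧ p.2 ∈ 𝒞 ∧ p.1 < p.2 ∧ ∀ q ∈ 𝒞, ¬ (p.1 < q ∧ q < p.2)) ∧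
          ¬ FPP p.1.1 ∧ FPP p.2.1}.ncard = k}
        (if n ≤ 1 then 0 else 1 + (n - 2) ^ 2 / 4) := by
    rintro P rfl
    have hset : ∀ 𝒞 : Set (Q10.Fpp.Ord (Fin n)),
        {p : Q10.Fpp.Ord (Fin n) × Q10.Fpp.Ord (Fin n) |
          (p.1 ∈ 𝒞 ∧ p.2 ∈ 𝒞 ∧ p.1 < p.2 ∧ ∀ q ∈ 𝒞, ¬ (p.1 < q ∧ q < p.2)) ∧
          ¬ FPP p.1.1 ∧ FPP p.2.1} = Q10.Fpp.gain 𝒞 := by
      intro 𝒞
      ext p
      constructor
      · rintro ⟨⟨h1, h2, h3, h4⟩, h5, h6⟩
        exact ⟨h1, h2, h3, h4, h5, h6⟩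
      · rintro ⟨h1, h2, h3, h4, h5, h6⟩
        exact ⟨⟨h1, h2, h3, h4⟩, h5, h6⟩
    have hup : ∀ 𝒞 : Set (Q10.Fpp.Ord (Fin n)), IsMaxChain (· ≤ ·) 𝒞 →
        (Q10.Fpp.gain 𝒞).ncard ≤ (if n ≤ 1 then 0 else 1 + (n - 2) ^ 2 / 4) := by
      intro 𝒞 h
      split_ifs with h1
      · have hsub : Subsingleton (Fin n) := by
          have : Subsingleton (Fin n) := by
            constructor
            intro x y
            apply Fin.ext
            omega
          exact this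
        have : Q10.Fpp.gain 𝒞 = ∅ := by
          rw [Set.eq_empty_iff_forall_notMem]
          rintro p ⟨_, _, h3, _⟩
          apply h3.ne
          apply Subtype.ext
          funext x y
          apply propext
          have e : x = y := Subsingleton.elim _ _
          subst e
          exact ⟨fun _ => p.2.2.refl x, fun _ => p.1.2.refl x⟩
        rw [this]
        simp
      · have := Q10.Fpp.upper_gain h (by simp; omega)
        simpa using this
    have hpath : ∃ (t : Fin n → Fin n → Prop) (m k c : ℕ),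
        Q10.Fpp.Path (Eq : Fin n → Fin n → Prop) t m k c ∧ (∀ x y, t x y ∨ t y x) ∧
          (if n ≤ 1 then 0 else 1 + (n - 2) ^ 2 / 4) ≤ k := by
      rcases Nat.lt_or_ge n 2 with h3 | h3
      · refine ⟨Eq, 0, 0, 0, .nil ⟨fun _ => rfl, fun _ _ h _ => h, fun _ _ _ h1 h2 => h1.trans h2⟩,
          fun x y => Or.inl (Fin.ext (by omega)), ?_⟩
        rw [if_pos (by omega)]
      · obtain ⟨m, rfl⟩ : ∃ m, n = m + 2 := ⟨n - 2, by omega⟩
        obtain ⟨t, l, c, p, ht⟩ := Q10.Fpp.good_eq m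
        refine ⟨t, l, _, c, p, ht, ?_⟩
        rw [if_neg (by omega), Nat.add_sub_cancel]
    obtain ⟨t, m, k, c, p, ht, hc⟩ := hpath
    obtain ⟨𝒞, hmax, _, hgain⟩ := Q10.Fpp.chain_of_path p ht
    constructor
    · refine ⟨𝒞, hmax, ?_⟩
      rw [hset]
      exact le_antisymm (hup 𝒞 hmax) (hc.trans hgain)
    · rintro j ⟨𝒟, h𝒟, rfl⟩
      rw [hset]
      exact hup 𝒟 h𝒟
  exact key IsOrder (funext fun r => propext
    ⟨fun h => ⟨h.1, h.2.1, h.2.2⟩, fun h => ⟨h.refl, h.antisymm, h.trans⟩⟩)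

end Pool.Agent.Results.MP_eb30e1_co.MaxGains
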