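import Pool.Agent.Q10.Fpp.Chains
import Pool.Agent.Q10.Fpp.Slow

/-!
# The smallest number of members with the fixed point property in a maximal chain of orders
-/

set_option autoImplicit false

namespace Pool.Agent.Results.MP_eb30e1_co.MinFppMembers

/-- `r` is an order relation: reflexive, antisymmetric and transitive. -/
def IsOrder {n : ℕ} (r : Fin n → Fin n → Prop) : Prop :=
  (∀ x, r x x) ∧ (∀ x y, r x y → r y x → x = y) ∧ (∀ x y z, r x y → r y z → r x z)

/-- The order relations on `Fin n`. As a subtype of the relations `Fin n → Fin n → Prop` they are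
ordered by inclusion: `r ≤ s` means that `r x y` implies `s x y` for all `x`, `y`. -/
abbrev OrderRel (n : ℕ) : Type := {r : Fin n → Fin n → Prop // IsOrder r}

/-- The fixed point property: every order preserving self-map has a fixed point. -/
def FPP {n : ℕ} (r : Fin n → Fin n → Prop) : Prop :=
  ∀ f : Fin n → Fin n, (∀ x y, r x y → r (f x) (f y)) → ∃ x, f x = x

/-- For `n ≠ 0, 2` the smallest number of members with the fixed point property in a maximal chain
of order relations on `n` points is `⌊n / 2⌋ + 1` (it is `1` for `n = 2` and `0` for `n = 0`). -/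
theorem result (n : ℕ) :
    IsLeast {k : ℕ | ∃ 𝒞 : Set (OrderRel n), IsMaxChain (· ≤ ·) 𝒞 ∧
      {r : OrderRel n | r ∈ 𝒞 ∧ FPP r.1}.ncard = k}
      (if n = 0 then 0 else if n = 2 then 1 else n / 2 + 1) := by
  have key : ∀ P : (Fin n → Fin n → Prop) → Prop, P = Q10.Fpp.PO →
      IsLeast {k : ℕ | ∃ 𝒞 : Set {r : Fin n → Fin n → Prop // P r}, IsMaxChain (· ≤ ·) 𝒞 ∧
        {r : {r : Fin n → Fin n → Prop // P r} | r ∈ 𝒞 ∧ FPP r.1}.ncard = k}
        (if n = 0 then 0 else if n = 2 then 1 else n / 2 + 1) := by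
    rintro P rfl
    have hlow : ∀ 𝒞 : Set (Q10.Fpp.Ord (Fin n)), IsMaxChain (· ≤ ·) 𝒞 →
        (if n = 0 then 0 else if n = 2 then 1 else n / 2 + 1) ≤ (Q10.Fpp.good 𝒞).ncard := by
      intro 𝒞 h
      split_ifs with h0 h2
      · exact Nat.zero_le _
      · exact Q10.Fpp.lower_good_two h (by simpa using h2)
      · have := Q10.Fpp.lower_good h (by simpa using h0) (by simpa using h2)
        simpa using this
    have hpath : ∃ (t : Fin n → Fin n → Prop) (m k c : ℕ),
        Q10.Fpp.Path (Eq : Fin n → Fin n → Prop) t m k c ∧ (∀ x y, t x y ∨ t y x) ∧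
        Q10.Fpp.ind (Eq : Fin n → Fin n → Prop) + c ≤
          (if n = 0 then 0 else if n = 2 then 1 else n / 2 + 1) := by
      rcases Nat.lt_or_ge n 3 with h3 | h3
      · interval_cases n
        · refine ⟨Eq, 0, 0, 0, .nil (Q10.Fpp.eq_po _), fun x => x.elim0, ?_⟩
          rw [Q10.Fpp.ind_eq_zero]
          · simp
          · intro h
            obtain ⟨x, _⟩ := h id (fun x => x.elim0)
            exact x.elim0
        · refine ⟨Eq, 0, 0, 0, .nil (Q10.Fpp.eq_po _), fun x y => Or.inl (Subsingleton.elim _ _), ?_⟩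
          have := Q10.Fpp.ind_le_one (Eq : Fin 1 → Fin 1 → Prop)
          simpa using this
        · have hpo : Q10.Fpp.PO (Q10.Fpp.add (Eq : Fin 2 → Fin 2 → Prop) 0 1) := by
            unfold Q10.Fpp.add
            exact ⟨by decide, by decide, by decide⟩
          have hs := Q10.Fpp.Path.single (Q10.Fpp.eq_po _) hpo ⟨0, 1, by decide, rfl⟩
          refine ⟨_, _, _, _, hs, ?_, ?_⟩
          · unfold Q10.Fpp.add; decide
          · have h1 := Q10.Fpp.ind_le_one (Q10.Fpp.add (Eq : Fin 2 → Fin 2 → Prop) 0 1)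
            have h2 : Q10.Fpp.ind (Eq : Fin 2 → Fin 2 → Prop) = 0 := by
              apply Q10.Fpp.ind_eq_zero
              refine Q10.Fpp.not_fpp_of_split (Q10.Fpp.eq_po _) (fun x => x = 0) ?_ (a := 0) (b := 1)
                rfl (by decide)
              rintro x y rfl
              exact Iff.rfl
            rw [h2]
            simpa using h1
      · obtain ⟨t, m, k, c, p, ht, hc⟩ := Q10.Fpp.slow n h3
        refine ⟨t, m, k, c, p, ht, ?_⟩
        have h2 : Q10.Fpp.ind (Eq : Fin n → Fin n → Prop) = 0 := by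
          apply Q10.Fpp.ind_eq_zero
          refine Q10.Fpp.not_fpp_of_split (Q10.Fpp.eq_po _) (fun x => x = ⟨0, by omega⟩) ?_
            (a := ⟨0, by omega⟩) (b := ⟨1, by omega⟩) rfl (by simp)
          rintro x y rfl
          exact Iff.rfl
        rw [h2, if_neg (by omega), if_neg (by omega)]
        omega
    obtain ⟨t, m, k, c, p, ht, hc⟩ := hpath
    obtain ⟨𝒞, hmax, hgood, _⟩ := Q10.Fpp.chain_of_path p ht
    constructor
    · exact ⟨𝒞, hmax, le_antisymm (hgood.trans hc) (hlow 𝒞 hmax)⟩
    · rintro j ⟨𝒟, h𝒟, rfl⟩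
      exact hlow 𝒟 h𝒟
  exact key IsOrder (funext fun r => propext
    ⟨fun h => ⟨h.1, h.2.1, h.2.2⟩, fun h => ⟨h.refl, h.antisymm, h.trans⟩⟩)

end Pool.Agent.Results.MP_eb30e1_co.MinFppMembers
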